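import Pool.Agent.H70.EN.Targets

/-!
# The energy of the largest correlation: row MN1
-/

set_option autoImplicit false

namespace Pool.Agent.H79.EN

open Pool.Agent.H70.EN Pool.Agent.H93.EB

theorem pf_MN1 (h1 : T_MNG) (h2 : T_PHI) : T_MN1 := by
  obtain ⟨C, hC, h⟩ := h1
  obtain ⟨hcv, hmono, hnn, hlip, hone⟩ := h2
  refine ⟨C, hC, fun X N H lam hX hlam hN hNH => ⟨?_, ?_⟩⟩
  · refine h phi X N H lam (hcv.subset (Set.subset_univ _) (convex_Icc 0 2))
      (hmono.monotoneOn _) (fun x hx y hy => ?_) (fun x hx => ⟨hnn x, ?_⟩) hX hlam hN hNH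
    · have := hlip x y hx.2 hy.2
      have h3 := abs_nonneg (x - y)
      linarith
    · have h3 := hlip x 1 hx.2 (by norm_num)
      have h4 := hone 1 le_rfl
      have h5 : |x - 1| ≤ 1 := abs_le.2 ⟨by linarith [hx.1], by linarith [hx.2]⟩
      have h6 := (abs_le.1 h3).2
      linarith
  · refine h (fun x => x ^ 2) X N H lam ?_ ?_ (fun x hx y hy => ?_) (fun x hx => ⟨sq_nonneg x, ?_⟩)
      hX hlam hN hNH
    · exact (even_two.convexOn_pow).subset (Set.subset_univ _) (convex_Icc 0 2)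
    · intro x hx y hy hxy
      exact pow_le_pow_left₀ hx.1 hxy 2
    · show |x ^ 2 - y ^ 2| ≤ 4 * |x - y|
      have h3 : x ^ 2 - y ^ 2 = (x + y) * (x - y) := by ring
      rw [h3, abs_mul]
      apply mul_le_mul_of_nonneg_right _ (abs_nonneg _)
      exact abs_le.2 ⟨by linarith [hx.1, hy.1], by linarith [hx.2, hy.2]⟩
    · show x ^ 2 ≤ 4
      nlinarith [hx.1, hx.2]

end Pool.Agent.H79.EN
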